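import Pool.Agent.H44T.BR.Op

/-!
# The sign conjecture up to errors of bounded rank

Fix the dimension `n`, for example `n = 3`. Let `π⁺` be the projector onto the even cohomology.

**Theorem.**

(1) The sign conjecture `C⁺(X)` (`π⁺` is induced by an algebraic cycle with rational coefficients) holds
for all smooth projective varieties `X` of dimension `n` if and only if there is ONE number `d`, for
example `d = 10 ^ 100`, such that for all these `X` some linear combination `φ` of algebraic
correspondences, with coefficients in the coefficient field `K` of the cohomology, satisfies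
`rank (φ - π⁺) ≤ d` on `H(X)`.

(2) For one polarized variety `(S, D)` of dimension `n`: `C⁺(S)` is true if, for some `N`, some smooth
complete intersection `V ⊆ S^N` of dimension `n` of divisors in multiples of the class `D + ... + D` has
such a combination with `rank (φ - π⁺) = d` and `d dim H(S) < N`.

So if `C⁺` fails for one variety of dimension `n`, then for every `d` there is a variety of the same
dimension for which no combination of algebraic correspondences is equal to `π⁺` up to an error of
rank at most `d`.

Proof. Let `V ⊆ S^N` be as above, with the projections `p_l : V → S`. If `x` is orthogonal to the powers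
of `ξ` then `p_{m*} p_j^* x = 0` for `m ≠ j` and `p_{j*} p_j^* x = κ x`. If `φ = π⁺ + m` on `H(V)`, with
`rank m ≤ d`, and `N > d dim H(S)`, then there is a nontrivial relation `∑ b_l p_{l*} = 0` on the image of
`m`, and `∑ b_l p_{l*} φ p_j^* x = π⁺ (∑ b_l p_{l*} p_j^* x) = b_j κ π⁺ x`, since `π⁺` commutes with the
`p_{l*}`. The projectors onto the powers of `ξ` are algebraic. The descent from `K` to the rational
numbers is the theorem `signStd_of_span` of the library.
-/

universe u v

namespace Pool.Agent.Results.MP_56c18a_ag.BoundedRankErrors

open Pool.Agent.H914 Pool.Agent.H914.VarClass Pool.Agent.H914.VarClass.Obj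
  Pool.Agent.H914.WeilCohomology Pool.Agent.H44T.BR Pool.Agent.H447

/-- **The sign conjecture holds for all varieties of dimension `n` if it holds up to errors of
bounded rank.** -/
theorem result {k : Type u} [Field k] {𝒱 : VarClass k} {ops : CycleOps 𝒱}
    (W : WeilCohomology.{u, v} ops) (Pol : ∀ X : 𝒱.Obj, X.Cycles → Prop) (n : ℕ)
    (hP : HasPowers W Pol n) :
    (SignAll W Pol n ↔ ∃ d, SignErrorsAtMost W Pol n d) ∧
    (∀ (S : 𝒱.Obj) (D : S.Cycles), S.dim = n → Pol S D → HasGoodSignPower W S D → SignStd W S) :=
  ⟨sign_iff hP, fun S D _ hSD h => sign_of_power (hP.cyc S D hSD) (hP.hard S D hSD) h⟩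

end Pool.Agent.Results.MP_56c18a_ag.BoundedRankErrors
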