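import Pool.Agent.V11106.SH.Sign

/-!
# The sign conjecture up to errors of small rank

Let `W` be a Weil cohomology theory (coefficients `K`, for example crystalline cohomology; no
Lefschetz axiom) on a class of varieties closed under products, which contains, for every `N`, a
surface with algebraic cohomology and `N` independent divisor classes (a successive blow-up of the
projective plane in rational points).

**Fixed dimension.** If on the varieties `Y` of dimension `n + 2` the projector onto the even
cohomology is a combination, with coefficients in `K`, of algebraic correspondences up to errors
whose rank is `o(b)`, where `b` is the sum of the Betti numbers of `Y`, then for all `X` of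
dimension `n` this projector is induced by an algebraic cycle with rational coefficients.

**All dimensions.** Hence the sign conjecture for all varieties is equivalent to errors whose rank is
bounded in each dimension, and to errors whose rank is `o(b)`.
-/

open CategoryTheory AlgebraicGeometry

universe u v

namespace Pool.Agent.Results.MP_56c18a_ag.SublinearDefects

open Pool.Agent.H914 VarClass Obj WeilCohomology Pool.Agent.V11106.LB Pool.Agent.V11106.SH

variable {k : Type u} [Field k] {𝒱 : VarClass k} {ops : CycleOps 𝒱}

theorem result (W : WeilCohomology.{u, v} ops) (hT : HasRationalSurfaces W) :
    (∀ n : ℕ, SignUpToSublinear W (n + 2) → SignExact W n) ∧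
    [∀ n : ℕ, SignExact W n, ∀ n : ℕ, SignUpToBounded W n,
      ∀ n : ℕ, SignUpToSublinear W n].TFAE :=
  sign_main hT

end Pool.Agent.Results.MP_56c18a_ag.SublinearDefects
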